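import Pool.Agent.H40.ISH.Stmts2

/-!
Project ISH, part 2, module HDL: a lower bound for the boundary.
-/

set_option linter.unusedVariables false

namespace Pool.ISH

open scoped Classical

theorem hdl_Tc_le (N : ℕ) (P : Set Site) (z : ℤ) : Tc N P z ≤ (2 * N + 1) ^ 2 := by
  unfold Tc
  have h1 : ((Vb N).filter (fun x => x 2 = z ∧ x ∈ P)).card ≤
      ((Finset.Icc (-(N : ℤ)) N) ×ˢ (Finset.Icc (-(N : ℤ)) N)).card := by
    apply Finset.card_le_card_of_injOn (fun x => (x 0, x 1))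
    · intro x hx
      have hx' := (Finset.mem_filter.1 (Finset.mem_coe.1 hx)).1
      have h := mem_Vb.1 hx'
      have h0 := abs_le.1 (h 0)
      have h1 := abs_le.1 (h 1)
      simp only [Finset.coe_product, Set.mem_prod, Finset.coe_Icc, Set.mem_Icc]
      exact ⟨h0, h1⟩
    · intro x hx y hy hxy
      have hx' := (Finset.mem_filter.1 (Finset.mem_coe.1 hx)).2.1
      have hy' := (Finset.mem_filter.1 (Finset.mem_coe.1 hy)).2.1
      simp only [Prod.mk.injEq] at hxy
      funext i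
      fin_cases i
      · exact hxy.1
      · exact hxy.2
      · exact hx'.trans hy'.symm
  refine h1.trans ?_
  rw [Finset.card_product, Int.card_Icc]
  have : ((N : ℤ) + 1 - (-(N : ℤ))).toNat = 2 * N + 1 := by omega
  rw [this, sq]

theorem hdl_card (N : ℕ) (P : Set Site) : ((Vb N).filter (fun x => x ∈ P)).card =
    ∑ z ∈ Finset.Icc (-(N : ℤ)) N, Tc N P z := by
  have h := Finset.card_eq_sum_card_fiberwise (s := (Vb N).filter (fun x => x ∈ P))
    (t := Finset.Icc (-(N : ℤ)) N) (f := fun x : Site => x 2) (by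
      intro x hx
      have hx' := (Finset.mem_filter.1 (Finset.mem_coe.1 hx)).1
      have h := abs_le.1 (mem_Vb.1 hx' 2)
      exact Finset.mem_coe.2 (Finset.mem_Icc.2 h))
  rw [h]
  apply Finset.sum_congr rfl
  intro z _
  unfold Tc
  rw [Finset.filter_filter]
  congr 1
  apply Finset.filter_congr
  intro x _
  exact and_comm

theorem hdl_split (N : ℕ) (f : ℤ → ℕ) : ∑ z ∈ Finset.Icc (-(N : ℤ)) N, f z =
    ∑ z ∈ Finset.Icc (-(N : ℤ)) 0, f z + ∑ z ∈ Finset.Icc (1 : ℤ) N, f z := by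
  rw [← Finset.sum_union]
  · apply Finset.sum_congr _ (fun _ _ => rfl)
    ext z
    simp only [Finset.mem_union, Finset.mem_Icc]
    omega
  · rw [Finset.disjoint_left]
    intro z h1 h2
    simp only [Finset.mem_Icc] at h1 h2
    omega

/-- HDL -/
theorem hdl (hS : SUMStmt) (hV : VRTStmt) (hP : PERStmt) : HDLStmt := by
  intro N P hO
  have h1 := hS N P
  have h2 := (hV N P hO).1
  have h3 := (hP N P hO).1
  rw [hdl_card, hdl_split]
  rw [hdl_split] at h1
  have h4 : ∑ z ∈ Finset.Icc (-(N : ℤ)) 0, Tc N P z ≤ (N + 1) * (2 * N + 1) ^ 2 := by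
    refine (Finset.sum_le_card_nsmul _ _ _ (fun z _ => hdl_Tc_le N P z)).trans ?_
    rw [Int.card_Icc]
    have : ((0 : ℤ) + 1 - (-(N : ℤ))).toNat = N + 1 := by omega
    rw [this, smul_eq_mul]
  have h5 : 4 * ∑ z ∈ Finset.Icc (1 : ℤ) N, Tc N P z ≤
      (2 * N + 1) * ∑ z ∈ Finset.Icc (1 : ℤ) N, Hc N P z := by
    rw [Finset.mul_sum, Finset.mul_sum]
    apply Finset.sum_le_sum
    intro z hz
    obtain ⟨hz1, hz2⟩ := Finset.mem_Icc.1 hz
    have h6 := h3 z hz1 hz2
    have h7 := hdl_Tc_le N P z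
    have h8 : (4 * Tc N P z) ^ 2 ≤ ((2 * N + 1) * Hc N P z) ^ 2 := by
      calc (4 * Tc N P z) ^ 2 = (16 * Tc N P z) * Tc N P z := by ring
        _ ≤ (Hc N P z ^ 2) * (2 * N + 1) ^ 2 := Nat.mul_le_mul h6 h7
        _ = ((2 * N + 1) * Hc N P z) ^ 2 := by ring
    exact (Nat.pow_le_pow_iff_left (by norm_num)).1 h8
  nlinarith [Nat.zero_le (∑ z ∈ Finset.Icc (-(N : ℤ)) 0, Hc N P z)]

end Pool.ISH
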